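import Pool.Agent.TH369.AN.FIN
import Pool.Agent.TH369.AN.LOC

/-!
# Uniform Anderson model: all compactly supported states are spectrally full

`Δ_ω = -Δ + ω` on `ℤ^d`, `d ≥ 2`, with iid `ω_j` uniform on `[-c, c]`, any `c > 0`. Almost surely,
simultaneously for all nonzero finitely supported vectors `g` (an uncountable family): the spectral
measure of `g` charges every interval which meets `(-c, 4d + c)`, the interior of the spectrum, and
it has atoms in every subinterval of two neighbourhoods `(-c, -c + κ)`, `(4d + c - κ, 4d + c)` of the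
edges of the spectrum. In particular no nonzero finitely supported vector lies in the absolutely
continuous subspace.
-/

set_option autoImplicit false

open scoped BigOperators ENNReal
open MeasureTheory

namespace Pool.Agent.Results.MP_562b47_mp.CompactlySupportedStates

/-- the uniform law on `[-c, c]` -/
noncomputable def unif (c : ℝ) : Measure ℝ :=
  ENNReal.ofReal (1 / (2 * c)) • volume.restrict (Set.Icc (-c) c)

/-- `(Δ_ω u)(j) = -∑_{|n|=1} (u(j+n) - u(j)) + ω_j u(j)` -/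
noncomputable def H {d : ℕ} (ω : (Fin d → ℤ) → ℝ) (u : (Fin d → ℤ) → ℂ) (j : Fin d → ℤ) : ℂ :=
  -∑ i : Fin d, ((u (j + Pi.single i 1) - u j) + (u (j - Pi.single i 1) - u j)) + (ω j : ℂ) * u j

/-- `m` is the spectral measure of `A` with respect to the vector `g`: a finite measure whose
Borel transform `∫ (t - z)⁻¹ dm(t)` is `⟨g, (A - z)⁻¹ g⟩` for all non-real `z` -/
def IsSpectralMeasure {d : ℕ} (A : ((Fin d → ℤ) → ℂ) → (Fin d → ℤ) → ℂ) (g : (Fin d → ℤ) → ℂ)
    (m : Measure ℝ) : Prop :=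
  IsFiniteMeasure m ∧ ∀ z : ℂ, z.im ≠ 0 → ∃ u : (Fin d → ℤ) → ℂ,
    (Summable fun x => ‖u x‖ ^ 2) ∧ (∀ x, A u x - z * u x = g x) ∧
    ∫ t : ℝ, ((t : ℂ) - z)⁻¹ ∂m = ∑' x, (starRingEnd ℂ) (g x) * u x

theorem H_eq {d : ℕ} (ω : (Fin d → ℤ) → ℝ) :
    H ω = Pool.Agent.H4R2.LO.Hg (-1) (fun x => ω x + 2 * d) := by
  funext u x
  unfold H Pool.Agent.H4R2.LO.Hg
  have h : ∑ i : Fin d, ((u (x + Pi.single i 1) - u x) + (u (x - Pi.single i 1) - u x)) =
      ∑ i : Fin d, (u (x + Pi.single i 1) + u (x - Pi.single i 1)) - 2 * (d : ℂ) * u x := by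
    rw [Finset.sum_add_distrib, Finset.sum_sub_distrib, Finset.sum_sub_distrib,
      Finset.sum_add_distrib]
    simp
    ring
  rw [h]
  push_cast
  ring

open Pool.Agent.H4R2.LO.Main (sgn sgn_add sgn_sub sgn_norm)

theorem sgn_conj {d : ℕ} (x : Fin d → ℤ) : (starRingEnd ℂ) (sgn x) = sgn x := by
  unfold sgn
  rw [map_zpow₀]
  simp

theorem sgn_sq {d : ℕ} (x : Fin d → ℤ) : sgn x * sgn x = 1 := by
  unfold sgn
  rw [← mul_zpow]
  simp

/-- the symmetry of the model: the energy `E` becomes `4 d - E`, `ω` becomes `-ω` -/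
theorem mirror {d : ℕ} (ω : (Fin d → ℤ) → ℝ) (g : (Fin d → ℤ) → ℂ) (m : Measure ℝ)
    (h : IsSpectralMeasure (H ω) g m) :
    IsSpectralMeasure (H fun x => -ω x) (fun x => sgn x * g x) (m.map fun t => 4 * d - t) := by
  obtain ⟨h0, h1⟩ := h
  refine ⟨Measure.isFiniteMeasure_map m _, ?_⟩
  intro z hz
  obtain ⟨u, hu, heq, hint⟩ := h1 (4 * d - z) (by
    have : ((4 : ℂ) * (d : ℂ)).im = 0 := by simp
    rw [Complex.sub_im, this]
    simpa using hz)
  refine ⟨fun x => -(sgn x * u x), ?_, ?_, ?_⟩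
  · refine hu.congr fun x => ?_
    rw [norm_neg, norm_mul, sgn_norm, one_mul]
  · intro x
    have h2 := heq x
    unfold H at h2 ⊢
    have h3 : ∑ i : Fin d, ((-(sgn (x + Pi.single i 1) * u (x + Pi.single i 1)) -
        -(sgn x * u x)) + (-(sgn (x - Pi.single i 1) * u (x - Pi.single i 1)) -
        -(sgn x * u x))) = sgn x * (∑ i : Fin d, ((u (x + Pi.single i 1) - u x) +
          (u (x - Pi.single i 1) - u x))) + 4 * d * (sgn x * u x) := by
      have h4 : (4 : ℂ) * d * (sgn x * u x) = ∑ _i : Fin d, 4 * (sgn x * u x) := by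
        simp
        ring
      rw [h4, Finset.mul_sum, ← Finset.sum_add_distrib]
      refine Finset.sum_congr rfl fun i _ => ?_
      rw [sgn_add, sgn_sub]
      ring
    rw [h3]
    push_cast
    linear_combination (sgn x) * h2
  · have hmeas : Measurable fun t : ℝ => (4 : ℝ) * d - t := by fun_prop
    rw [integral_map hmeas.aemeasurable (by
      apply Measurable.aestronglyMeasurable
      fun_prop)]
    have h5 : ∀ t : ℝ, (((4 * (d : ℝ) - t : ℝ) : ℂ) - z)⁻¹ = -((t : ℂ) - (4 * d - z))⁻¹ := by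
      intro t
      rw [← inv_neg]
      congr 1
      push_cast
      ring
    simp_rw [h5]
    rw [integral_neg, hint, ← tsum_neg]
    refine tsum_congr fun x => ?_
    rw [map_mul, sgn_conj]
    linear_combination (starRingEnd ℂ (g x) * u x) * sgn_sq x

theorem unif_neg (c : ℝ) : (unif c).map (fun t => -t) = unif c := by
  ext S hS
  rw [Measure.map_apply measurable_neg hS]
  unfold unif
  rw [Measure.smul_apply, Measure.smul_apply, Measure.restrict_apply (measurable_neg hS),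
    Measure.restrict_apply hS, smul_eq_mul, smul_eq_mul]
  have h1 : (fun t : ℝ => -t) ⁻¹' S ∩ Set.Icc (-c) c = -(S ∩ Set.Icc (-c) c) := by
    ext t
    simp only [Set.mem_inter_iff, Set.mem_preimage, Set.mem_Icc, Set.mem_neg]
    refine and_congr_right fun _ => ⟨fun h => ⟨by linarith [h.2], by linarith [h.1]⟩,
      fun h => ⟨by linarith [h.2], by linarith [h.1]⟩⟩
  rw [h1, Measure.measure_neg]

theorem ae_neg {d : ℕ} (c : ℝ) (hc : 0 < c) (p : ((Fin d → ℤ) → ℝ) → Prop)
    (h : ∀ᵐ ω ∂(Measure.infinitePi fun _ : Fin d → ℤ => unif c), p ω) :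
    ∀ᵐ ω ∂(Measure.infinitePi fun _ : Fin d → ℤ => unif c), p fun x => -ω x := by
  have hP : IsProbabilityMeasure (unif c) := Pool.Agent.TH369.AN.unif_prob c hc
  have h1 := Measure.infinitePi_map_pi (μ := fun _ : Fin d → ℤ => unif c)
    (f := fun _ (s : ℝ) => -s) (fun _ => measurable_neg)
  rw [unif_neg c] at h1
  rw [← h1] at h
  have hm2 : Measurable (fun (ω : (Fin d → ℤ) → ℝ) x => -ω x) := by fun_prop
  exact ae_of_ae_map hm2.aemeasurable h

/-- a measure which charges every interval and which is carried by a countable set has a dense set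
of atoms -/
theorem dense_atoms (m : Measure ℝ) (N : Set ℝ) (hN : N.Countable) (a b e : ℝ)
    (h : 0 < m (Set.Ioo a b)) (hb : b ≤ e) (hm : m (Set.Iio e \ N) = 0) :
    ∃ E ∈ Set.Ioo a b, m {E} ≠ 0 := by
  by_contra hcon
  push Not at hcon
  have h1 : m (Set.Ioo a b ∩ N) = 0 := by
    have h2 : Set.Ioo a b ∩ N = ⋃ E ∈ Set.Ioo a b ∩ N, {E} :=
      (Set.biUnion_of_singleton _).symm
    rw [h2, measure_biUnion_null_iff (hN.mono Set.inter_subset_right)]
    intro E hE
    exact hcon E hE.1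
  have h3 : m (Set.Ioo a b \ N) = 0 := by
    refine measure_mono_null ?_ hm
    refine Set.sdiff_subset_sdiff_left fun E hE => ?_
    exact lt_of_lt_of_le hE.2 hb
  have h4 : m (Set.Ioo a b) = 0 := by
    rw [← Set.inter_union_sdiff (Set.Ioo a b) N]
    exact measure_union_null h1 h3
  exact h.ne' h4

theorem half (d : ℕ) (hd : 2 ≤ d) (c : ℝ) (hc : 0 < c) :
    ∃ κ : ℝ, 0 < κ ∧ ∀ᵐ ω ∂(Measure.infinitePi fun _ : Fin d → ℤ => unif c),
      ∀ (g : (Fin d → ℤ) → ℂ) (B : Finset (Fin d → ℤ)), (∀ x, x ∉ B → g x = 0) → g ≠ 0 →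
      ∀ m : Measure ℝ, IsSpectralMeasure (H ω) g m →
        (∀ a b : ℝ, a < b → -c < b → a < 4 * d + c → 0 < m (Set.Ioo a b)) ∧
        (∀ a b : ℝ, a < b → -c < b → a < -c + κ → ∃ E ∈ Set.Ioo a b, m {E} ≠ 0) := by
  obtain ⟨κ, hκ, hloc⟩ := Pool.Agent.TH369.AN.loc (d := d) (by omega) c hc
  have hfin := Pool.Agent.TH369.AN.fin (d := d) (by omega) c hc
  refine ⟨min κ 1, by positivity, ?_⟩
  have e1 : Pool.Agent.TH369.AN.iid d (Pool.Agent.TH369.AN.unif c) =
    Measure.infinitePi fun _ : Fin d → ℤ => unif c := rfl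
  rw [e1] at hloc hfin
  filter_upwards [hloc, hfin] with ω hl hf
  intro g B hgB hg m hm
  rw [H_eq] at hm
  obtain ⟨N, hN, hl⟩ := hl
  have h1 := (hf g B hgB hg m hm).1
  refine ⟨h1, ?_⟩
  intro a b hab hb ha
  have hg2 : Pool.Agent.H4R2.LO.L2f g := by
    unfold Pool.Agent.H4R2.LO.L2f
    refine summable_of_ne_finset_zero (s := B) fun x hx => ?_
    rw [hgB x hx]
    simp
  have h2 := hl g m hg2 hm
  have h0 : (1 : ℝ) ≤ d := by exact_mod_cast (by omega : 1 ≤ d)
  have hκ1 : 0 < min κ 1 := by positivity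
  have hpos : 0 < m (Set.Ioo (max a (-c)) (min b (-c + min κ 1))) := by
    refine h1 _ _ ?_ (lt_min hb (by linarith)) (max_lt ?_ (by linarith))
    · exact lt_min (max_lt hab hb) (max_lt ha (by linarith))
    · have := min_le_right κ 1
      linarith
  obtain ⟨E, hE, hE2⟩ := dense_atoms m N hN _ _ (-c + κ) hpos
    ((min_le_right _ _).trans (by linarith [min_le_left κ 1])) h2
  exact ⟨E, ⟨lt_of_le_of_lt (le_max_left _ _) hE.1, lt_of_lt_of_le hE.2 (min_le_left _ _)⟩, hE2⟩

/-- **Theorem.** For every `d ≥ 2` and `c > 0` there is `κ > 0` such that almost surely, for all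
nonzero finitely supported vectors `g` at once, the spectral measure `m` of `g`
(1) charges every interval meeting the interior `(-c, 4 d + c)` of the spectrum of `Δ_ω`,
(2) has an atom in every interval meeting `(-c, -c + κ)` or `(4 d + c - κ, 4 d + c)`,
(3) is not absolutely continuous. -/
theorem result (d : ℕ) (hd : 2 ≤ d) (c : ℝ) (hc : 0 < c) :
    ∃ κ : ℝ, 0 < κ ∧ ∀ᵐ ω ∂(Measure.infinitePi fun _ : Fin d → ℤ => unif c),
      ∀ (g : (Fin d → ℤ) → ℂ) (B : Finset (Fin d → ℤ)), (∀ x, x ∉ B → g x = 0) → g ≠ 0 →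
      ∀ m : Measure ℝ, IsSpectralMeasure (H ω) g m →
        (∀ a b : ℝ, a < b → -c < b → a < 4 * d + c → 0 < m (Set.Ioo a b)) ∧
        (∀ a b : ℝ, a < b → ((-c < b ∧ a < -c + κ) ∨ (4 * d + c - κ < b ∧ a < 4 * d + c)) →
          ∃ E ∈ Set.Ioo a b, m {E} ≠ 0) ∧
        ¬ m ≪ volume := by
  obtain ⟨κ, hκ, h1⟩ := half d hd c hc
  refine ⟨κ, hκ, ?_⟩
  have h2 := ae_neg c hc _ h1
  filter_upwards [h1, h2] with ω h1 h2
  intro g B hgB hg m hm
  obtain ⟨h3, h4⟩ := h1 g B hgB hg m hm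
  have hB' : ∀ x, x ∉ B → sgn x * g x = 0 := fun x hx => by rw [hgB x hx, mul_zero]
  have hg' : (fun x => sgn x * g x) ≠ 0 := by
    intro hcon
    apply hg
    funext x
    have h5 := congrFun hcon x
    simp only [Pi.zero_apply] at h5 ⊢
    calc g x = (sgn x * sgn x) * g x := by rw [sgn_sq, one_mul]
      _ = sgn x * (sgn x * g x) := by ring
      _ = 0 := by rw [h5, mul_zero]
  obtain ⟨-, h6⟩ := h2 (fun x => sgn x * g x) B hB' hg' _ (mirror ω g m hm)
  refine ⟨h3, ?_, ?_⟩
  · rintro a b hab (⟨hb, ha⟩ | ⟨hb, ha⟩)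
    · exact h4 a b hab hb ha
    · obtain ⟨E, hE, hE2⟩ := h6 (4 * d - b) (4 * d - a) (by linarith) (by linarith) (by linarith)
      refine ⟨4 * d - E, ⟨by linarith [hE.2], by linarith [hE.1]⟩, ?_⟩
      rw [Measure.map_apply (by fun_prop) (measurableSet_singleton _)] at hE2
      have h7 : (fun t : ℝ => 4 * (d : ℝ) - t) ⁻¹' {E} = {4 * (d : ℝ) - E} := by
        ext t
        simp only [Set.mem_preimage, Set.mem_singleton_iff]
        constructor <;> intro h <;> linarith
      rwa [h7] at hE2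
  · intro hac
    obtain ⟨E, -, hE2⟩ := h4 (-c) (-c + κ) (by linarith) (by linarith) (by linarith)
    exact hE2 (hac (Real.volume_singleton))

end Pool.Agent.Results.MP_562b47_mp.CompactlySupportedStates
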